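import Mathlib

/-!
Iterated BKR (disjoint occurrence) products: definitions, reduction of bracketings with few proper
factors, products over a finite family of examples.
-/

set_option autoImplicit false

namespace Pool.Agent.Q215.BKR

variable {ι κ S : Type*}

/-- `[x]_K`, the points that agree with `x` on `K`. -/
def cyl (x : ι → S) (K : Finset ι) : Set (ι → S) := {y | ∀ i ∈ K, y i = x i}

/-- The binary BKR product `A □ B`. -/
def box (A B : Set (ι → S)) : Set (ι → S) :=
  {x | ∃ K L : Finset ι, Disjoint K L ∧ cyl x K ⊆ A ∧ cyl x L ⊆ B}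

/-- The simultaneous `r`-fold BKR product of `A 1, ..., A r`. -/
def simul (r : ℕ) (A : ℕ → Set (ι → S)) : Set (ι → S) :=
  {x | ∃ K : ℕ → Finset ι,
    (∀ i j, 1 ≤ i → i ≤ r → 1 ≤ j → j ≤ r → i ≠ j → Disjoint (K i) (K j)) ∧
    ∀ i, 1 ≤ i → i ≤ r → cyl x (K i) ⊆ A i}

/-- The binary-associated product given by the bracketing `t` of the word
`A k, A (k + 1), ..., A (k + t.numLeaves - 1)`. -/
def prod (A : ℕ → Set (ι → S)) : BinaryTree Unit → ℕ → Set (ι → S)
  | .nil, k => A k
  | .node _ l r, k => box (prod A l k) (prod A r (k + l.numLeaves))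

theorem cyl_self (x : ι → S) (K : Finset ι) : x ∈ cyl x K := fun _ _ => rfl

theorem box_univ (A : Set (ι → S)) [Fintype ι] : box A Set.univ = A := by
  classical
  ext x
  constructor
  · rintro ⟨K, L, -, h, -⟩
    exact h (cyl_self x K)
  · intro hx
    refine ⟨Finset.univ, ∅, Finset.disjoint_empty_right _, ?_, fun _ _ => trivial⟩
    intro y hy
    have : y = x := funext fun i => hy i (Finset.mem_univ i)
    rw [this]; exact hx

theorem box_comm (A B : Set (ι → S)) : box A B = box B A := by
  ext x
  constructor <;> rintro ⟨K, L, h, h1, h2⟩ <;> exact ⟨L, K, h.symm, h2, h1⟩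

theorem univ_box (A : Set (ι → S)) [Fintype ι] : box Set.univ A = A := by
  rw [box_comm, box_univ]

theorem leaves_pos (t : BinaryTree Unit) : 1 ≤ t.numLeaves := by
  rw [BinaryTree.numLeaves_eq_numNodes_succ]; omega

/-- No proper factor. -/
theorem prod_univ [Fintype ι] (A : ℕ → Set (ι → S)) (t : BinaryTree Unit) : ∀ k : ℕ,
    (∀ m, k ≤ m → m < k + t.numLeaves → A m = Set.univ) → prod A t k = Set.univ := by
  induction t with
  | nil => intro k h; exact h k le_rfl (by simp [BinaryTree.numLeaves])
  | node a l r hl hr =>
    intro k h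
    have el : (BinaryTree.node a l r).numLeaves = l.numLeaves + r.numLeaves := rfl
    rw [el] at h
    show box _ _ = _
    rw [hl k (fun m h1 h2 => h m h1 (by omega)),
      hr _ (fun m h1 h2 => h m (by omega) (by omega)), box_univ]

/-- One proper factor. -/
theorem prod_one [Fintype ι] (A : ℕ → Set (ι → S)) (t : BinaryTree Unit) : ∀ k i : ℕ,
    k ≤ i → i < k + t.numLeaves →
    (∀ m, k ≤ m → m < k + t.numLeaves → m ≠ i → A m = Set.univ) → prod A t k = A i := by
  induction t with
  | nil =>
    intro k i h1 h2 h
    have : i = k := by simp [BinaryTree.numLeaves] at h2; omega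
    subst this; rfl
  | node a l r hl hr =>
    intro k i h1 h2 h
    have el : (BinaryTree.node a l r).numLeaves = l.numLeaves + r.numLeaves := rfl
    rw [el] at h2 h
    show box _ _ = _
    rcases lt_or_ge i (k + l.numLeaves) with hi | hi
    · rw [hl k i h1 hi (fun m h3 h4 h5 => h m h3 (by omega) h5),
        prod_univ A r _ (fun m h3 h4 => h m (by omega) (by omega) (by omega)), box_univ]
    · rw [hr _ i hi (by omega) (fun m h3 h4 h5 => h m (by omega) (by omega) h5),
        prod_univ A l _ (fun m h3 h4 => h m (by omega) (by omega) (by omega)), univ_box]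

/-- Two proper factors. -/
theorem prod_two [Fintype ι] (A : ℕ → Set (ι → S)) (t : BinaryTree Unit) : ∀ k i j : ℕ,
    k ≤ i → i < j → j < k + t.numLeaves →
    (∀ m, k ≤ m → m < k + t.numLeaves → m ≠ i → m ≠ j → A m = Set.univ) →
    prod A t k = box (A i) (A j) := by
  induction t with
  | nil =>
    intro k i j h1 h2 h3
    exfalso
    simp [BinaryTree.numLeaves] at h3; omega
  | node a l r hl hr =>
    intro k i j h1 h2 h3 h
    have el : (BinaryTree.node a l r).numLeaves = l.numLeaves + r.numLeaves := rfl
    rw [el] at h3 h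
    show box _ _ = _
    rcases lt_or_ge j (k + l.numLeaves) with hj | hj
    · rw [hl k i j h1 h2 hj (fun m h3 h4 h5 h6 => h m h3 (by omega) h5 h6),
        prod_univ A r _ (fun m h3 h4 => h m (by omega) (by omega) (by omega) (by omega)), box_univ]
    · rcases lt_or_ge i (k + l.numLeaves) with hi | hi
      · rw [prod_one A l k i h1 hi (fun m h3 h4 h5 => h m h3 (by omega) h5 (by omega)),
          prod_one A r _ j hj (by omega)
            (fun m h3 h4 h5 => h m (by omega) (by omega) (by omega) h5)]
      · rw [hr _ i j hi h2 (by omega) (fun m h3 h4 h5 h6 => h m (by omega) (by omega) h5 h6),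
          prod_univ A l _ (fun m h3 h4 => h m (by omega) (by omega) (by omega) (by omega)),
          univ_box]

/-- Three proper factors. -/
theorem prod_three [Fintype ι] (A : ℕ → Set (ι → S)) (t : BinaryTree Unit) : ∀ k i j p : ℕ,
    k ≤ i → i < j → j < p → p < k + t.numLeaves →
    (∀ m, k ≤ m → m < k + t.numLeaves → m ≠ i → m ≠ j → m ≠ p → A m = Set.univ) →
    prod A t k = box (box (A i) (A j)) (A p) ∨ prod A t k = box (A i) (box (A j) (A p)) := by
  induction t with
  | nil =>
    intro k i j p h1 h2 h3 h4
    exfalso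
    simp [BinaryTree.numLeaves] at h4; omega
  | node a l r hl hr =>
    intro k i j p h1 h2 h3 h4 h
    have el : (BinaryTree.node a l r).numLeaves = l.numLeaves + r.numLeaves := rfl
    rw [el] at h4 h
    show box _ _ = _ ∨ box _ _ = _
    rcases lt_or_ge p (k + l.numLeaves) with hp | hp
    · rw [prod_univ A r _ (fun m h3 h4 => h m (by omega) (by omega) (by omega) (by omega)
        (by omega)), box_univ]
      exact hl k i j p h1 h2 h3 hp (fun m h3 h4 h5 h6 h7 => h m h3 (by omega) h5 h6 h7)
    · rcases lt_or_ge j (k + l.numLeaves) with hj | hj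
      · left
        rw [prod_two A l k i j h1 h2 hj (fun m h3 h4 h5 h6 => h m h3 (by omega) h5 h6 (by omega)),
          prod_one A r _ p hp (by omega)
            (fun m h3 h4 h5 => h m (by omega) (by omega) (by omega) (by omega) h5)]
      · rcases lt_or_ge i (k + l.numLeaves) with hi | hi
        · right
          rw [prod_one A l k i h1 hi (fun m h3 h4 h5 => h m h3 (by omega) h5 (by omega) (by omega)),
            prod_two A r _ j p hj h3 (by omega)
              (fun m h3 h4 h5 h6 => h m (by omega) (by omega) (by omega) h5 h6)]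
        · rw [prod_univ A l _ (fun m h3 h4 => h m (by omega) (by omega) (by omega) (by omega)
            (by omega)), univ_box]
          exact hr _ i j p hi h2 h3 (by omega)
            (fun m h3 h4 h5 h6 h7 => h m (by omega) (by omega) h5 h6 h7)

end Pool.Agent.Q215.BKR
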