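import Mathlib

/-!
# Logarithmic convexity of `∫ (cos² + w² sin²)^κ`
-/

namespace Pool.Agent.Q215.SNC

open Real MeasureTheory Set

/-- A function which strictly decreases at its zeros and starts nonpositive stays nonpositive. -/
lemma crossing {g g' : ℝ → ℝ} {a b : ℝ} (hg : ∀ x ∈ Ico a b, HasDerivAt g (g' x) x)
    (ha : g a ≤ 0) (hc : ∀ x ∈ Ico a b, g x = 0 → g' x < 0) : ∀ x ∈ Ico a b, g x ≤ 0 := by
  intro x hx
  have hsub : Icc a x ⊆ Ico a b := fun y hy => ⟨hy.1, hy.2.trans_lt hx.2⟩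
  refine image_le_of_deriv_right_lt_deriv_boundary' (f := g) (f' := g') (a := a) (b := x)
    (B := fun _ => 0) (B' := fun _ => 0)
    (fun y hy => (hg y (hsub hy)).continuousAt.continuousWithinAt)
    (fun y hy => (hg y (hsub (Ico_subset_Icc_self hy))).hasDerivWithinAt) ha continuousOn_const
    (fun y _ => hasDerivWithinAt_const _ _ _)
    (fun y hy h => hc y (hsub (Ico_subset_Icc_self hy)) h) ⟨hx.1, le_refl x⟩

/-- Differentiation under the integral sign. -/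
lemma hasDerivAt_param {f f' : ℝ → ℝ → ℝ} {U : Set ℝ} (hU : IsOpen U)
    (hf : ContinuousOn (fun p : ℝ × ℝ => f p.1 p.2) (U ×ˢ univ))
    (hf' : ContinuousOn (fun p : ℝ × ℝ => f' p.1 p.2) (U ×ˢ univ))
    (hd : ∀ w ∈ U, ∀ φ, HasDerivAt (fun w => f w φ) (f' w φ) w) (a b : ℝ)
    {w : ℝ} (hw : w ∈ U) :
    HasDerivAt (fun w => ∫ φ in a..b, f w φ) (∫ φ in a..b, f' w φ) w := by
  obtain ⟨ε, hε, hball⟩ := Metric.isOpen_iff.1 hU w hw
  have hcl : Metric.closedBall w (ε/2) ⊆ U :=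
    (Metric.closedBall_subset_ball (by linarith)).trans hball
  have hcomp : IsCompact (Metric.closedBall w (ε/2) ×ˢ uIcc a b) :=
    (isCompact_closedBall w _).prod isCompact_uIcc
  obtain ⟨C, hC⟩ := hcomp.exists_bound_of_continuousOn
    (hf'.mono (prod_mono hcl (subset_univ _)))
  have hfc : ∀ x ∈ U, Continuous (f x) := by
    intro x hx
    have := hf.comp_continuous (f := fun φ : ℝ => ((x, φ) : ℝ × ℝ)) (by fun_prop)
      (fun φ => ⟨hx, mem_univ _⟩)
    exact this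
  have hfc' : ∀ x ∈ U, Continuous (f' x) := by
    intro x hx
    have := hf'.comp_continuous (f := fun φ : ℝ => ((x, φ) : ℝ × ℝ)) (by fun_prop)
      (fun φ => ⟨hx, mem_univ _⟩)
    exact this
  refine (intervalIntegral.hasDerivAt_integral_of_dominated_loc_of_deriv_le
    (s := Metric.ball w (ε/2)) (bound := fun _ => C) (Metric.ball_mem_nhds w (by linarith))
    ?_ ?_ ?_ ?_ ?_ ?_).2
  · filter_upwards [hU.mem_nhds hw] with x hx
    exact (hfc x hx).aestronglyMeasurable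
  · exact (hfc w hw).intervalIntegrable _ _
  · exact (hfc' w hw).aestronglyMeasurable
  · refine Filter.Eventually.of_forall fun t ht x hx => ?_
    exact hC (x, t) ⟨Metric.ball_subset_closedBall hx, uIoc_subset_uIcc ht⟩
  · exact intervalIntegrable_const
  · refine Filter.Eventually.of_forall fun t _ x hx => ?_
    exact hd x (hcl (Metric.ball_subset_closedBall hx)) t

/-- The base `cos²(φ/2) + w² sin²(φ/2)`. -/
noncomputable def q (w φ : ℝ) : ℝ := (1 + cos φ) / 2 + w ^ 2 * ((1 - cos φ) / 2)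

lemma q_pos {w : ℝ} (hw : 0 < w) (φ : ℝ) : 0 < q w φ := by
  unfold q
  have h1 := cos_le_one φ
  have h2 := neg_one_le_cos φ
  rcases eq_or_lt_of_le h2 with h | h
  · rw [← h]
    nlinarith [pow_pos hw 2]
  · have : 0 ≤ w ^ 2 * ((1 - cos φ) / 2) := by
      have := sq_nonneg w
      apply mul_nonneg this
      linarith
    linarith

lemma q_nonneg (w φ : ℝ) : 0 ≤ q w φ := by
  unfold q
  have h1 := cos_le_one φ
  have h2 := neg_one_le_cos φ
  have : 0 ≤ w ^ 2 * ((1 - cos φ) / 2) := mul_nonneg (sq_nonneg w) (by linarith)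
  linarith

lemma q_one (φ : ℝ) : q 1 φ = 1 := by unfold q; ring

lemma continuous_q : Continuous (fun p : ℝ × ℝ => q p.1 p.2) := by
  unfold q
  fun_prop

lemma hasDerivAt_q (w φ : ℝ) : HasDerivAt (fun w => q w φ) (w * (1 - cos φ)) w := by
  unfold q
  have h : HasDerivAt (fun w : ℝ => (1 + cos φ) / 2 + w ^ 2 * ((1 - cos φ) / 2))
      ((((2 : ℕ) : ℝ) * w ^ (2 - 1)) * ((1 - cos φ) / 2)) w :=
    ((hasDerivAt_pow 2 w).mul_const _).const_add _
  convert h using 1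
  push_cast
  ring

lemma hasDerivAt_q' (w φ : ℝ) :
    HasDerivAt (fun φ => q w φ) ((w ^ 2 - 1) * sin φ / 2) φ := by
  unfold q
  have h1 : HasDerivAt (fun φ : ℝ => (1 + cos φ) / 2) ((-sin φ) / 2) φ :=
    ((hasDerivAt_cos φ).const_add 1).div_const 2
  have h2 : HasDerivAt (fun φ : ℝ => w ^ 2 * ((1 - cos φ) / 2)) (w ^ 2 * ((-(-sin φ)) / 2)) φ :=
    (((hasDerivAt_cos φ).const_sub 1).div_const 2).const_mul _
  refine (h1.add h2).congr_deriv ?_
  ring

/-- The integrands. -/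
noncomputable def f0 (κ w φ : ℝ) : ℝ := q w φ ^ κ

noncomputable def f1 (κ w φ : ℝ) : ℝ := κ * (w * (1 - cos φ)) * q w φ ^ (κ - 1)

noncomputable def f2 (κ w φ : ℝ) : ℝ :=
  κ * (1 - cos φ) * q w φ ^ (κ - 1) + κ * (κ - 1) * (w * (1 - cos φ)) ^ 2 * q w φ ^ (κ - 2)

noncomputable def F0 (κ w : ℝ) : ℝ := ∫ φ in (0 : ℝ)..π, f0 κ w φ

noncomputable def F1 (κ w : ℝ) : ℝ := ∫ φ in (0 : ℝ)..π, f1 κ w φ

noncomputable def F2 (κ w : ℝ) : ℝ := ∫ φ in (0 : ℝ)..π, f2 κ w φ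

lemma cont_pow (κ : ℝ) :
    ContinuousOn (fun p : ℝ × ℝ => q p.1 p.2 ^ κ) (Ioi 0 ×ˢ univ) := by
  refine ContinuousOn.rpow_const continuous_q.continuousOn ?_
  intro p hp
  exact Or.inl (q_pos hp.1 p.2).ne'

lemma cont_f0 (κ : ℝ) : ContinuousOn (fun p : ℝ × ℝ => f0 κ p.1 p.2) (Ioi 0 ×ˢ univ) :=
  cont_pow κ

lemma cont_f1 (κ : ℝ) : ContinuousOn (fun p : ℝ × ℝ => f1 κ p.1 p.2) (Ioi 0 ×ˢ univ) := by
  unfold f1
  exact ContinuousOn.mul (by fun_prop) (cont_pow _)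

lemma cont_f2 (κ : ℝ) : ContinuousOn (fun p : ℝ × ℝ => f2 κ p.1 p.2) (Ioi 0 ×ˢ univ) := by
  unfold f2
  exact (ContinuousOn.mul (by fun_prop) (cont_pow _)).add
    (ContinuousOn.mul (by fun_prop) (cont_pow _))

lemma contφ {f : ℝ → ℝ → ℝ}
    (hf : ContinuousOn (fun p : ℝ × ℝ => f p.1 p.2) (Ioi 0 ×ˢ univ)) {w : ℝ} (hw : 0 < w) :
    Continuous (f w) := by
  have := hf.comp_continuous (f := fun φ : ℝ => ((w, φ) : ℝ × ℝ)) (by fun_prop)
    (fun φ => ⟨hw, mem_univ _⟩)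
  exact this

lemma hasDerivAt_pow_q (κ : ℝ) {w : ℝ} (hw : 0 < w) (φ : ℝ) :
    HasDerivAt (fun w => q w φ ^ κ) (w * (1 - cos φ) * κ * q w φ ^ (κ - 1)) w :=
  (hasDerivAt_q w φ).rpow_const (Or.inl (q_pos hw φ).ne')

lemma hasDerivAt_F0 (κ : ℝ) {w : ℝ} (hw : 0 < w) : HasDerivAt (F0 κ) (F1 κ w) w := by
  refine hasDerivAt_param (f := f0 κ) (f' := f1 κ) isOpen_Ioi (cont_f0 κ) (cont_f1 κ)
    (fun w hw φ => ?_) 0 π hw
  have h := hasDerivAt_pow_q κ hw φ
  unfold f0 f1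
  convert h using 1
  ring

lemma hasDerivAt_F1 (κ : ℝ) {w : ℝ} (hw : 0 < w) : HasDerivAt (F1 κ) (F2 κ w) w := by
  refine hasDerivAt_param (f := f1 κ) (f' := f2 κ) isOpen_Ioi (cont_f1 κ) (cont_f2 κ)
    (fun w hw φ => ?_) 0 π hw
  have h := hasDerivAt_pow_q (κ - 1) hw φ
  have h2 : HasDerivAt (fun w : ℝ => κ * (w * (1 - cos φ))) (κ * (1 * (1 - cos φ))) w :=
    ((hasDerivAt_id w).mul_const _).const_mul _
  have h3 := h2.mul h
  unfold f1 f2
  have e : κ - 1 - 1 = κ - 2 := by ring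
  rw [e] at h3
  refine h3.congr_deriv ?_
  ring

/-- Vanishing of the integral of the total derivative of `sin φ q^(κ-1)`. -/
lemma total (κ : ℝ) {w : ℝ} (hw : 0 < w) :
    ∫ φ in (0 : ℝ)..π, (cos φ * q w φ ^ (κ - 1) +
      (κ - 1) * ((w ^ 2 - 1) * sin φ ^ 2 / 2) * q w φ ^ (κ - 2)) = 0 := by
  have hder : ∀ φ ∈ uIcc (0 : ℝ) π, HasDerivAt (fun φ => sin φ * q w φ ^ (κ - 1))
      (cos φ * q w φ ^ (κ - 1) +
      (κ - 1) * ((w ^ 2 - 1) * sin φ ^ 2 / 2) * q w φ ^ (κ - 2)) φ := by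
    intro φ _
    have h1 := (hasDerivAt_q' w φ).rpow_const (p := κ - 1) (Or.inl (q_pos hw φ).ne')
    have h2 := (hasDerivAt_sin φ).mul h1
    have e : κ - 1 - 1 = κ - 2 := by ring
    rw [e] at h2
    refine h2.congr_deriv ?_
    ring
  have hc : Continuous fun φ => (cos φ * q w φ ^ (κ - 1) +
      (κ - 1) * ((w ^ 2 - 1) * sin φ ^ 2 / 2) * q w φ ^ (κ - 2)) := by
    have h1 := contφ (f := fun w φ => q w φ ^ (κ - 1)) (cont_pow (κ - 1)) hw
    have h2 := contφ (f := fun w φ => q w φ ^ (κ - 2)) (cont_pow (κ - 2)) hw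
    exact (continuous_cos.mul h1).add (Continuous.mul (by fun_prop) h2)
  rw [intervalIntegral.integral_eq_sub_of_hasDerivAt hder (hc.intervalIntegrable _ _)]
  simp

lemma q_pow_one (κ : ℝ) {w : ℝ} (hw : 0 < w) (φ : ℝ) :
    q w φ ^ (κ - 1) = q w φ * q w φ ^ (κ - 2) := by
  have h := q_pos hw φ
  rw [show κ - 1 = 1 + (κ - 2) by ring, rpow_add h, rpow_one]

lemma q_pow_zero (κ : ℝ) {w : ℝ} (hw : 0 < w) (φ : ℝ) :
    q w φ ^ κ = q w φ * q w φ ^ (κ - 1) := by
  have h := q_pos hw φ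
  nth_rewrite 1 [show κ = 1 + (κ - 1) by ring]
  rw [rpow_add h, rpow_one]

/-- The differential equation. -/
lemma ode (κ : ℝ) {w : ℝ} (hw : 0 < w) :
    w * (1 - w ^ 2) * F2 κ w - (2 * κ * (1 - w ^ 2) + 2 * w ^ 2) * F1 κ w
      + 2 * κ * w * F0 κ w = 0 := by
  have h0 := (contφ (cont_f0 κ) hw).intervalIntegrable (μ := volume) 0 π
  have h1 := (contφ (cont_f1 κ) hw).intervalIntegrable (μ := volume) 0 π
  have h2 := (contφ (cont_f2 κ) hw).intervalIntegrable (μ := volume) 0 π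
  unfold F0 F1 F2
  rw [← intervalIntegral.integral_const_mul, ← intervalIntegral.integral_const_mul,
    ← intervalIntegral.integral_const_mul, ← intervalIntegral.integral_sub
      (h2.const_mul _) (h1.const_mul _), ← intervalIntegral.integral_add
      ((h2.const_mul _).sub (h1.const_mul _)) (h0.const_mul _)]
  have ht := total κ hw
  have : (2 * κ * w) * ∫ φ in (0 : ℝ)..π, (cos φ * q w φ ^ (κ - 1) +
      (κ - 1) * ((w ^ 2 - 1) * sin φ ^ 2 / 2) * q w φ ^ (κ - 2)) = 0 := by rw [ht, mul_zero]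
  rw [← intervalIntegral.integral_const_mul] at this
  refine Eq.trans ?_ this
  apply intervalIntegral.integral_congr
  intro φ _
  simp only [f0, f1, f2]
  rw [q_pow_zero κ hw φ, q_pow_one κ hw φ]
  have hs : sin φ ^ 2 = 1 - cos φ ^ 2 := by
    have := sin_sq_add_cos_sq φ
    linarith
  rw [hs]
  have hq : q w φ = (1 + cos φ) / 2 + w ^ 2 * ((1 - cos φ) / 2) := rfl
  generalize q w φ ^ (κ - 2) = R
  rw [hq]
  ring

lemma F0_pos (κ : ℝ) {w : ℝ} (hw : 0 < w) : 0 < F0 κ w := by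
  refine intervalIntegral.intervalIntegral_pos_of_pos_on
    ((contφ (cont_f0 κ) hw).intervalIntegrable 0 π) (fun φ _ => ?_) pi_pos
  exact rpow_pos_of_pos (q_pos hw φ) _

/-- Integral of `cos φ q^(κ-1)`. -/
lemma cos_int (κ : ℝ) {w : ℝ} (hw : 0 < w) :
    ∫ φ in (0 : ℝ)..π, cos φ * q w φ ^ (κ - 1) =
      (κ - 1) * (1 - w ^ 2) / 2 * ∫ φ in (0 : ℝ)..π, sin φ ^ 2 * q w φ ^ (κ - 2) := by
  have ht := total κ hw
  have hc1 := contφ (f := fun w φ => q w φ ^ (κ - 1)) (cont_pow (κ - 1)) hw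
  have hc2 := contφ (f := fun w φ => q w φ ^ (κ - 2)) (cont_pow (κ - 2)) hw
  have hadd := intervalIntegral.integral_add (μ := volume) (a := 0) (b := π)
    (f := fun φ => cos φ * q w φ ^ (κ - 1))
    (g := fun φ => (κ - 1) * ((w ^ 2 - 1) * sin φ ^ 2 / 2) * q w φ ^ (κ - 2))
    ((continuous_cos.mul hc1).intervalIntegrable _ _)
    ((Continuous.mul (by fun_prop) hc2).intervalIntegrable _ _)
  rw [hadd] at ht
  rw [← intervalIntegral.integral_const_mul]
  have e : ∫ φ in (0 : ℝ)..π, (κ - 1) * ((w ^ 2 - 1) * sin φ ^ 2 / 2) * q w φ ^ (κ - 2) =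
      - ∫ φ in (0 : ℝ)..π, (κ - 1) * (1 - w ^ 2) / 2 * (sin φ ^ 2 * q w φ ^ (κ - 2)) := by
    rw [← intervalIntegral.integral_neg]
    apply intervalIntegral.integral_congr
    intro φ _
    ring
  rw [e] at ht
  linarith

lemma cos_int_nonneg {κ : ℝ} (hκ : 1 ≤ κ) {w : ℝ} (hw : 0 < w) (hw1 : w ≤ 1) :
    0 ≤ ∫ φ in (0 : ℝ)..π, cos φ * q w φ ^ (κ - 1) := by
  rw [cos_int κ hw]
  refine mul_nonneg ?_ ?_
  · have : 0 ≤ 1 - w ^ 2 := by nlinarith
    have : 0 ≤ (κ - 1) * (1 - w ^ 2) := mul_nonneg (by linarith) this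
    linarith
  · refine intervalIntegral.integral_nonneg pi_pos.le fun φ _ => ?_
    exact mul_nonneg (sq_nonneg _) (rpow_nonneg (q_nonneg _ _) _)

lemma F1_nonneg {κ : ℝ} (hκ : 0 ≤ κ) {w : ℝ} (hw : 0 < w) : 0 ≤ F1 κ w := by
  refine intervalIntegral.integral_nonneg pi_pos.le fun φ _ => ?_
  unfold f1
  have h1 := cos_le_one φ
  exact mul_nonneg (mul_nonneg hκ (mul_nonneg hw.le (by linarith))) (rpow_nonneg (q_nonneg _ _) _)

lemma F1_le {κ : ℝ} (hκ : 1 ≤ κ) {w : ℝ} (hw : 0 < w) (hw1 : w ≤ 1) :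
    F1 κ w ≤ κ * F0 κ w := by
  have h0 := (contφ (cont_f0 κ) hw).intervalIntegrable (μ := volume) 0 π
  have h1 := (contφ (cont_f1 κ) hw).intervalIntegrable (μ := volume) 0 π
  have hc1 := contφ (f := fun w φ => q w φ ^ (κ - 1)) (cont_pow (κ - 1)) hw
  have hc := cos_int_nonneg hκ hw hw1
  have key : κ * (∫ φ in (0 : ℝ)..π, cos φ * q w φ ^ (κ - 1)) ≤ κ * F0 κ w - F1 κ w := by
    unfold F0 F1
    rw [← intervalIntegral.integral_const_mul, ← intervalIntegral.integral_const_mul,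
      ← intervalIntegral.integral_sub (h0.const_mul _) h1]
    refine intervalIntegral.integral_mono_on pi_pos.le
      (((continuous_cos.mul hc1).intervalIntegrable _ _).const_mul _)
      ((h0.const_mul _).sub h1) fun φ _ => ?_
    simp only [f0, f1]
    rw [q_pow_zero κ hw φ]
    have hR : 0 ≤ q w φ ^ (κ - 1) := rpow_nonneg (q_nonneg _ _) _
    have hq : q w φ = (1 + cos φ) / 2 + w ^ 2 * ((1 - cos φ) / 2) := rfl
    have hd : 0 ≤ q w φ - w * (1 - cos φ) - cos φ := by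
      rw [hq]
      have h1 := cos_le_one φ
      nlinarith [mul_nonneg (sub_nonneg.2 h1) (sq_nonneg (1 - w))]
    have : κ * (q w φ * q w φ ^ (κ - 1)) - κ * (w * (1 - cos φ)) * q w φ ^ (κ - 1)
        - κ * (cos φ * q w φ ^ (κ - 1)) =
        κ * ((q w φ - w * (1 - cos φ) - cos φ) * q w φ ^ (κ - 1)) := by ring
    have h3 : 0 ≤ κ * ((q w φ - w * (1 - cos φ) - cos φ) * q w φ ^ (κ - 1)) :=
      mul_nonneg (by linarith) (mul_nonneg hd hR)
    linarith
  have : 0 ≤ κ * (∫ φ in (0 : ℝ)..π, cos φ * q w φ ^ (κ - 1)) := mul_nonneg (by linarith) hc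
  linarith

lemma F0_one (κ : ℝ) : F0 κ 1 = π := by
  unfold F0 f0
  simp [q_one]

lemma int_one_sub_cos : ∫ φ in (0 : ℝ)..π, (1 - cos φ) = π := by
  rw [intervalIntegral.integral_sub (by simp) (continuous_cos.intervalIntegrable _ _)]
  simp

lemma int_one_sub_cos_sq : ∫ φ in (0 : ℝ)..π, (1 - cos φ) ^ 2 = 3 * π / 2 := by
  have : (fun φ : ℝ => (1 - cos φ) ^ 2) = fun φ => (1 - 2 * cos φ) + cos φ ^ 2 := by
    funext φ; ring
  rw [this, intervalIntegral.integral_add ((by fun_prop : Continuous fun φ : ℝ =>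
    (1 - 2 * cos φ)).intervalIntegrable _ _) ((by fun_prop : Continuous fun φ : ℝ =>
    cos φ ^ 2).intervalIntegrable _ _), intervalIntegral.integral_sub (by simp)
    ((by fun_prop : Continuous fun φ : ℝ => 2 * cos φ).intervalIntegrable _ _),
    integral_cos_sq, intervalIntegral.integral_const_mul]
  simp
  ring

lemma F1_one (κ : ℝ) : F1 κ 1 = κ * π := by
  unfold F1 f1
  have : ∀ φ : ℝ, κ * (1 * (1 - cos φ)) * q 1 φ ^ (κ - 1) = κ * (1 - cos φ) := by
    intro φ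
    rw [q_one, one_rpow]
    ring
  simp only [this]
  rw [intervalIntegral.integral_const_mul, int_one_sub_cos]

lemma F2_one (κ : ℝ) : F2 κ 1 = κ * π + κ * (κ - 1) * (3 * π / 2) := by
  unfold F2 f2
  have : ∀ φ : ℝ, κ * (1 - cos φ) * q 1 φ ^ (κ - 1) +
      κ * (κ - 1) * (1 * (1 - cos φ)) ^ 2 * q 1 φ ^ (κ - 2) =
      κ * (1 - cos φ) + κ * (κ - 1) * (1 - cos φ) ^ 2 := by
    intro φ
    rw [q_one, one_rpow, one_rpow]
    ring
  simp only [this]
  rw [intervalIntegral.integral_add ((by fun_prop : Continuous fun φ : ℝ =>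
    κ * (1 - cos φ)).intervalIntegrable _ _) ((by fun_prop : Continuous fun φ : ℝ =>
    κ * (κ - 1) * (1 - cos φ) ^ 2).intervalIntegrable _ _),
    intervalIntegral.integral_const_mul, int_one_sub_cos,
    intervalIntegral.integral_const_mul, int_one_sub_cos_sq]

/-- The logarithmic derivative. -/
noncomputable def Y (κ w : ℝ) : ℝ := F1 κ w / F0 κ w

noncomputable def Y' (κ w : ℝ) : ℝ := (F2 κ w * F0 κ w - F1 κ w * F1 κ w) / F0 κ w ^ 2

lemma hasDerivAt_Y (κ : ℝ) {w : ℝ} (hw : 0 < w) : HasDerivAt (Y κ) (Y' κ w) w :=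
  (hasDerivAt_F1 κ hw).div (hasDerivAt_F0 κ hw) (F0_pos κ hw).ne'

/-- The right hand side of the Riccati equation. -/
def D (κ w y : ℝ) : ℝ :=
  -(w * (1 - w ^ 2)) * y ^ 2 + 2 * (κ * (1 - w ^ 2) + w ^ 2) * y - 2 * κ * w

def Dw (κ w y : ℝ) : ℝ := (3 * w ^ 2 - 1) * y ^ 2 - 4 * (κ - 1) * w * y - 2 * κ

def Dy (κ w y : ℝ) : ℝ := -(2 * (w * (1 - w ^ 2))) * y + 2 * (κ * (1 - w ^ 2) + w ^ 2)

lemma riccati (κ : ℝ) {w : ℝ} (hw : 0 < w) : w * (1 - w ^ 2) * Y' κ w = D κ w (Y κ w) := by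
  have h := ode κ hw
  have h0 := (F0_pos κ hw).ne'
  unfold Y' D Y
  field_simp
  linear_combination (F0 κ w) * h

lemma hasDerivAt_g (κ : ℝ) {w : ℝ} (hw : 0 < w) :
    HasDerivAt (fun w => D κ w (Y κ w)) (Dw κ w (Y κ w) + Dy κ w (Y κ w) * Y' κ w) w := by
  have hY := hasDerivAt_Y κ hw
  have hid := hasDerivAt_id w
  have h2 : HasDerivAt (fun w : ℝ => w ^ 2) (2 * w) w := by
    have := hasDerivAt_pow 2 w
    simpa using this
  have hm : HasDerivAt (fun w : ℝ => 1 - w ^ 2) (-(2 * w)) w := h2.const_sub 1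
  have hA : HasDerivAt (fun w : ℝ => -(w * (1 - w ^ 2))) (-(1 * (1 - w ^ 2) + w * (-(2 * w)))) w :=
    (hid.mul hm).neg
  have hY2 : HasDerivAt (fun w => Y κ w ^ 2) (2 * Y κ w * Y' κ w) w := by
    refine (hY.pow 2).congr_deriv ?_
    push_cast
    ring
  have hB : HasDerivAt (fun w : ℝ => 2 * (κ * (1 - w ^ 2) + w ^ 2))
      (2 * (κ * (-(2 * w)) + 2 * w)) w := ((hm.const_mul κ).add h2).const_mul 2
  have hC : HasDerivAt (fun w : ℝ => 2 * κ * w) (2 * κ * 1) w := hid.const_mul _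
  have := ((hA.mul hY2).add (hB.mul hY)).sub hC
  unfold D Dw Dy
  refine this.congr_deriv ?_
  ring

/-! ### Exponents `κ ≥ 1`, `0 < w ≤ 1` -/

lemma Y_nonneg {κ : ℝ} (hκ : 0 ≤ κ) {w : ℝ} (hw : 0 < w) : 0 ≤ Y κ w :=
  div_nonneg (F1_nonneg hκ hw) (F0_pos κ hw).le

lemma Y_le {κ : ℝ} (hκ : 1 ≤ κ) {w : ℝ} (hw : 0 < w) (hw1 : w ≤ 1) : Y κ w ≤ κ := by
  unfold Y
  rw [div_le_iff₀ (F0_pos κ hw)]
  exact F1_le hκ hw hw1

lemma Y_one (κ : ℝ) : Y κ 1 = κ := by
  unfold Y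
  rw [F0_one, F1_one]
  field_simp

lemma Dw_neg {κ w y : ℝ} (hκ : 1 ≤ κ) (hw : 0 < w) (hw1 : w < 1) (hy : 0 ≤ y) (hyκ : y ≤ κ) :
    Dw κ w y < 0 := by
  unfold Dw
  have h1 : 0 ≤ (κ - 1) * w * y := mul_nonneg (mul_nonneg (by linarith) hw.le) hy
  rcases le_or_gt (3 * w ^ 2 - 1) 0 with h | h
  · nlinarith [mul_nonneg (neg_nonneg.2 h) (sq_nonneg y)]
  · -- `y² ≤ κ y`
    have h2 : (3 * w ^ 2 - 1) * y ^ 2 ≤ (3 * w ^ 2 - 1) * (κ * y) := by
      refine mul_le_mul_of_nonneg_left ?_ h.le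
      nlinarith
    have hng : 0 ≤ -(3 * w ^ 2 - 4 * w - 1) := by nlinarith
    have hb : κ * (3 * w ^ 2 - 4 * w - 1) + 4 * w ≤ 3 * w ^ 2 - 1 := by
      nlinarith [mul_nonneg (sub_nonneg.2 hκ) hng]
    have hw3 : 3 * w ^ 2 - 1 < 2 := by nlinarith
    have h3 : y * (κ * (3 * w ^ 2 - 4 * w - 1) + 4 * w) ≤ y * (3 * w ^ 2 - 1) :=
      mul_le_mul_of_nonneg_left hb hy
    have h4 : y * (3 * w ^ 2 - 1) ≤ κ * (3 * w ^ 2 - 1) := mul_le_mul_of_nonneg_right hyκ h.le
    have h5 : κ * (3 * w ^ 2 - 1) < κ * 2 := mul_lt_mul_of_pos_left hw3 (by linarith)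
    nlinarith

lemma g_nonneg {κ : ℝ} (hκ : 1 ≤ κ) {w : ℝ} (hw : 0 < w) (hw1 : w < 1) :
    0 ≤ D κ w (Y κ w) := by
  by_contra hneg
  push Not at hneg
  have hc : ∀ x ∈ Ico w 1, D κ x (Y κ x) ≤ 0 := by
    refine crossing (g' := fun x => Dw κ x (Y κ x) + Dy κ x (Y κ x) * Y' κ x)
      (fun x hx => hasDerivAt_g κ (hw.trans_le hx.1)) hneg.le (fun x hx h0 => ?_)
    have hx0 : 0 < x := hw.trans_le hx.1
    have hr := riccati κ hx0
    rw [h0] at hr
    have hne : x * (1 - x ^ 2) ≠ 0 := by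
      have : 0 < 1 - x ^ 2 := by nlinarith [hx.2]
      positivity
    have hY' : Y' κ x = 0 := by
      rcases mul_eq_zero.1 hr with h | h
      · exact absurd h hne
      · exact h
    simp only [hY', mul_zero, add_zero]
    exact Dw_neg hκ hx0 hx.2 (Y_nonneg (by linarith) hx0) (Y_le hκ hx0 hx.2.le)
  have hanti : AntitoneOn (Y κ) (Icc w 1) := by
    refine antitoneOn_of_deriv_nonpos (convex_Icc _ _)
      (fun x hx => (hasDerivAt_Y κ (hw.trans_le hx.1)).continuousAt.continuousWithinAt) ?_ ?_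
    · intro x hx
      rw [interior_Icc] at hx
      exact (hasDerivAt_Y κ (hw.trans hx.1)).differentiableAt.differentiableWithinAt
    · intro x hx
      rw [interior_Icc] at hx
      have hx0 : 0 < x := hw.trans hx.1
      rw [(hasDerivAt_Y κ hx0).deriv]
      have hr := riccati κ hx0
      have h1 := hc x ⟨hx.1.le, hx.2⟩
      rw [← hr] at h1
      have hpos : 0 < x * (1 - x ^ 2) := by
        have : 0 < 1 - x ^ 2 := by nlinarith [hx.2]
        positivity
      by_contra hcon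
      push Not at hcon
      have := mul_pos hpos hcon
      linarith
  have h1 := hanti ⟨le_refl w, hw1.le⟩ ⟨hw1.le, le_refl 1⟩ hw1.le
  rw [Y_one] at h1
  have h2 := Y_le hκ hw hw1.le
  have h3 : Y κ w = κ := le_antisymm h2 h1
  rw [h3] at hneg
  unfold D at hneg
  have : -(w * (1 - w ^ 2)) * κ ^ 2 + 2 * (κ * (1 - w ^ 2) + w ^ 2) * κ - 2 * κ * w =
      κ * (1 - w) * (κ * ((1 + w) * (2 - w)) - 2 * w) := by ring
  rw [this] at hneg
  have h4 : 0 ≤ κ * ((1 + w) * (2 - w)) - 2 * w := by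
    have : 0 < (1 + w) * (2 - w) := by
      apply mul_pos <;> linarith
    nlinarith
  have h5 : 0 ≤ κ * (1 - w) * (κ * ((1 + w) * (2 - w)) - 2 * w) :=
    mul_nonneg (mul_nonneg (by linarith) (by linarith)) h4
  linarith

lemma Y'_nonneg_small {κ : ℝ} (hκ : 1 ≤ κ) {w : ℝ} (hw : 0 < w) (hw1 : w < 1) :
    0 ≤ Y' κ w := by
  have hr := riccati κ hw
  have h1 := g_nonneg hκ hw hw1
  rw [← hr] at h1
  have hpos : 0 < w * (1 - w ^ 2) := by
    have : 0 < 1 - w ^ 2 := by nlinarith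
    positivity
  by_contra hcon
  push Not at hcon
  have := mul_neg_of_pos_of_neg hpos hcon
  linarith

/-! ### Exponents `κ < 0`, `w ≥ 1` -/

lemma F1_neg {κ : ℝ} (hκ : κ < 0) {w : ℝ} (hw : 0 < w) : F1 κ w < 0 := by
  have h : 0 < ∫ φ in (0 : ℝ)..π, -f1 κ w φ := by
    refine intervalIntegral.intervalIntegral_pos_of_pos_on
      ((contφ (cont_f1 κ) hw).neg.intervalIntegrable 0 π) (fun φ hφ => ?_) pi_pos
    unfold f1
    have hc : cos φ < 1 := by
      have := Real.cos_lt_cos_of_nonneg_of_le_pi (le_refl 0) hφ.2.le hφ.1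
      simpa using this
    have hR : 0 < q w φ ^ (κ - 1) := rpow_pos_of_pos (q_pos hw φ) _
    have : 0 < (-κ) * (w * (1 - cos φ)) * q w φ ^ (κ - 1) :=
      mul_pos (mul_pos (by linarith) (mul_pos hw (by linarith))) hR
    linarith
  rw [intervalIntegral.integral_neg] at h
  unfold F1
  linarith

lemma Y_neg {κ : ℝ} (hκ : κ < 0) {w : ℝ} (hw : 0 < w) : Y κ w < 0 :=
  div_neg_of_neg_of_pos (F1_neg hκ hw) (F0_pos κ hw)

lemma V_le_two {κ : ℝ} (hκ : κ < 0) {w : ℝ} (hw : 0 < w) : -(w * Y κ w) ≤ -(2 * κ) := by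
  have h0 := (contφ (cont_f0 κ) hw).intervalIntegrable (μ := volume) 0 π
  have h1 := (contφ (cont_f1 κ) hw).intervalIntegrable (μ := volume) 0 π
  have key : 2 * κ * F0 κ w ≤ w * F1 κ w := by
    unfold F0 F1
    rw [← intervalIntegral.integral_const_mul, ← intervalIntegral.integral_const_mul]
    refine intervalIntegral.integral_mono_on pi_pos.le (h0.const_mul _) (h1.const_mul _)
      fun φ _ => ?_
    simp only [f0, f1]
    rw [q_pow_zero κ hw φ]
    have hR : 0 ≤ q w φ ^ (κ - 1) := rpow_nonneg (q_nonneg _ _) _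
    have hq : q w φ = (1 + cos φ) / 2 + w ^ 2 * ((1 - cos φ) / 2) := rfl
    have hd : 0 ≤ 2 * q w φ - w ^ 2 * (1 - cos φ) := by
      rw [hq]
      have h2 := neg_one_le_cos φ
      nlinarith
    have h3 : 0 ≤ (-κ) * ((2 * q w φ - w ^ 2 * (1 - cos φ)) * q w φ ^ (κ - 1)) :=
      mul_nonneg (by linarith) (mul_nonneg hd hR)
    nlinarith
  unfold Y
  have h0 := F0_pos κ hw
  have : -(w * (F1 κ w / F0 κ w)) = (-(w * F1 κ w)) / F0 κ w := by ring
  rw [this, div_le_iff₀ h0]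
  linarith

lemma V_le {κ : ℝ} (hκ : κ < 0) {w : ℝ} (hw : 1 ≤ w) : -(w * Y κ w) ≤ 1 - κ := by
  rcases le_or_gt (-1) κ with h | h
  · have := V_le_two hκ (by linarith : 0 < w)
    linarith
  · have hc : ∀ x ∈ Ico (1 : ℝ) (w + 1), -(x * Y κ x) - (1 - κ) ≤ 0 := by
      refine crossing (g := fun x => -(x * Y κ x) - (1 - κ))
        (g' := fun x => -(1 * Y κ x + x * Y' κ x))
        (fun x hx => ?_) ?_ (fun x hx h0 => ?_)
      · exact (((hasDerivAt_id x).mul (hasDerivAt_Y κ (by linarith [hx.1]))).neg).sub_const _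
      · rw [Y_one]
        linarith
      · have hx0 : 0 < x := by linarith [hx.1]
        have hx1 : 1 < x := by
          rcases eq_or_lt_of_le hx.1 with h' | h'
          · exfalso
            rw [← h', Y_one] at h0
            linarith
          · exact h'
        have hr := riccati κ hx0
        have hV : x * Y κ x = κ - 1 := by linarith
        -- `x (x²-1) (x Y' + Y)` computed
        have hu : 0 < x ^ 2 - 1 := by nlinarith
        have e1 : x * (1 - x ^ 2) * (1 * Y κ x + x * Y' κ x) =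
            (1 - x ^ 2) * (x * Y κ x) + x * D κ x (Y κ x) := by
          rw [← hr]; ring
        have e2 : x * D κ x (Y κ x) = -((1 - x ^ 2) * (x * Y κ x) ^ 2) +
            2 * (κ * (1 - x ^ 2) + x ^ 2) * (x * Y κ x) - 2 * κ * x ^ 2 := by
          unfold D; ring
        rw [e2, hV] at e1
        have e3 : (1 - x ^ 2) * (κ - 1) + (-((1 - x ^ 2) * (κ - 1) ^ 2) +
            2 * (κ * (1 - x ^ 2) + x ^ 2) * (κ - 1) - 2 * κ * x ^ 2) =
            -((x ^ 2 - 1) * (κ * (κ + 1))) - 2 := by ring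
        rw [e3] at e1
        have hk : 0 < κ * (κ + 1) := by nlinarith
        have h5 : x * (1 - x ^ 2) * (1 * Y κ x + x * Y' κ x) < 0 := by
          rw [e1]
          nlinarith [mul_pos hu hk]
        have h6 : 0 < 1 * Y κ x + x * Y' κ x := by
          by_contra hcon
          push Not at hcon
          have : 0 ≤ x * (x ^ 2 - 1) := by positivity
          nlinarith [mul_nonneg this (neg_nonneg.2 hcon)]
        linarith
    have := hc w ⟨hw, by linarith⟩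
    linarith

lemma Y'_one (κ : ℝ) : Y' κ 1 = κ * (κ - 1) / 2 := by
  unfold Y'
  rw [F0_one, F1_one, F2_one]
  have := pi_pos.ne'
  field_simp
  ring

lemma g_nonpos {κ : ℝ} (hκ : κ < 0) {w : ℝ} (hw : 1 ≤ w) : D κ w (Y κ w) ≤ 0 := by
  have hc : ∀ x ∈ Ico (1 : ℝ) (w + 1), D κ x (Y κ x) ≤ 0 := by
    refine crossing (g := fun x => D κ x (Y κ x))
      (g' := fun x => Dw κ x (Y κ x) + Dy κ x (Y κ x) * Y' κ x)
      (fun x hx => hasDerivAt_g κ (by linarith [hx.1])) ?_ (fun x hx h0 => ?_)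
    · simp only [Y_one, D]
      ring_nf
      exact le_refl _
    · have hx0 : 0 < x := by linarith [hx.1]
      rcases eq_or_lt_of_le hx.1 with h' | hx1
      · rw [← h', Y_one, Y'_one]
        unfold Dw Dy
        nlinarith
      · have hr := riccati κ hx0
        rw [h0] at hr
        have hu : 0 < x ^ 2 - 1 := by nlinarith
        have hne : x * (1 - x ^ 2) ≠ 0 := by
          have : x * (1 - x ^ 2) = -(x * (x ^ 2 - 1)) := by ring
          rw [this]
          exact neg_ne_zero.2 (mul_pos hx0 hu).ne'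
        have hY' : Y' κ x = 0 := by
          rcases mul_eq_zero.1 hr with h | h
          · exact absurd h hne
          · exact h
        simp only [hY', mul_zero, add_zero]
        have hV := V_le hκ hx1.le
        have hYn := Y_neg hκ hx0
        have h0' : D κ x (Y κ x) = 0 := h0
        have e : x * Dw κ x (Y κ x) = D κ x (Y κ x) +
            2 * (-Y κ x) * (x ^ 2 * (-(x * Y κ x)) - (1 - κ) * x ^ 2 + κ) := by
          unfold Dw D; ring
        rw [h0', zero_add] at e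
        have h7 : x ^ 2 * (-(x * Y κ x)) ≤ x ^ 2 * (1 - κ) :=
          mul_le_mul_of_nonneg_left hV (sq_nonneg x)
        have h8 : x ^ 2 * (-(x * Y κ x)) - (1 - κ) * x ^ 2 + κ < 0 := by nlinarith
        have h9 : x * Dw κ x (Y κ x) < 0 := by
          rw [e]
          exact mul_neg_of_pos_of_neg (by linarith) h8
        by_contra hcon
        push Not at hcon
        have := mul_nonneg hx0.le hcon
        linarith
  exact hc w ⟨hw, by linarith⟩

lemma Y'_nonneg_large {κ : ℝ} (hκ : κ < 0) {w : ℝ} (hw : 1 < w) : 0 ≤ Y' κ w := by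
  have hw0 : 0 < w := by linarith
  have hr := riccati κ hw0
  have h1 := g_nonpos hκ hw.le
  rw [← hr] at h1
  have hu : 0 < w ^ 2 - 1 := by nlinarith
  by_contra hcon
  push Not at hcon
  have : 0 < w * (w ^ 2 - 1) := by positivity
  nlinarith [mul_pos this (neg_pos.2 hcon)]

end Pool.Agent.Q215.SNC
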